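import Pool.Agent.V8H49.Shrink.Mach

/-!
# An `NP`-hard disjoint `NP`-pair without the shrinking property

Relative to some oracle `NP` equals `UP`, does not have the shrinking property, and there is an
`NP`-hard disjoint `NP`-pair.
-/

namespace Pool.Agent.Results.MP_58deb1_lc.OracleHardPair

open Pool.Agent.NPC Pool.Agent.H628R3.RO Pool.Agent.V8H49.Shrink

/-- There is an oracle `O` relative to which `NP` does not have the shrinking property, every
language in `NP` is in `UP`, and some disjoint `NP`-pair is `NP`-hard. -/
theorem result : ∃ O : Oracle, ¬ Shrinking (IsNP O) ∧ (∀ L, IsNP O L → IsUP O L) ∧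
    ∃ A B, NPHardPair O A B := exists_oracle

end Pool.Agent.Results.MP_58deb1_lc.OracleHardPair
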